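import Mathlib

/-!
# Slalom numbers of ideals: definitions
-/

set_option autoImplicit false

namespace Pool.Agent.Q307.Slal

open Cardinal

/-- Proper ideals on `ω` which contain all finite sets. -/
structure IsIdeal (J : Set (Set ℕ)) : Prop where
  fin : ∀ X : Set ℕ, X.Finite → X ∈ J
  mono : ∀ X ∈ J, ∀ Y : Set ℕ, Y ⊆ X → Y ∈ J
  union : ∀ X ∈ J, ∀ Y ∈ J, X ∪ Y ∈ J
  proper : Set.univ ∉ J

/-- The ideal is maximal: it contains each set or its complement. -/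
def IsMaxIdeal (J : Set (Set ℕ)) : Prop := IsIdeal J ∧ ∀ X : Set ℕ, X ∈ J ∨ Xᶜ ∈ J

/-- The slaloms of width `h`. -/
def Slalom (h : ℕ → ℕ) : Set (ℕ → Finset ℕ) := {s | ∀ n, (s n).card ≤ h n}

/-- `κ` is the least cardinality of a set with the property `Φ` (in particular, there is one). -/
def IsMin {α : Type} (Φ : Set α → Prop) (κ : Cardinal.{0}) : Prop :=
  (∃ S, Φ S ∧ #S = κ) ∧ ∀ S, Φ S → κ ≤ #S

/-- The families in the definition of `sl_t(h, J)`. -/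
def SlT (h : ℕ → ℕ) (J : Set (Set ℕ)) (S : Set (ℕ → Finset ℕ)) : Prop :=
  S ⊆ Slalom h ∧ ∀ x : ℕ → ℕ, ∃ s ∈ S, {n | x n ∉ s n} ∈ J

/-- The families in the definition of `sl_e(h, J)`. -/
def SlE (h : ℕ → ℕ) (J : Set (Set ℕ)) (S : Set (ℕ → Finset ℕ)) : Prop :=
  S ⊆ Slalom h ∧ ∀ x : ℕ → ℕ, ∃ s ∈ S, {n | x n ∈ s n} ∉ J

/-- The families in the definition of the dual of `sl_t(h, J)`. -/
def SlTperp (h : ℕ → ℕ) (J : Set (Set ℕ)) (F : Set (ℕ → ℕ)) : Prop :=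
  ∀ s ∈ Slalom h, ∃ x ∈ F, {n | x n ∉ s n} ∉ J

/-- The families in the definition of the dual of `sl_e(h, J)`. -/
def SlEperp (h : ℕ → ℕ) (J : Set (Set ℕ)) (F : Set (ℕ → ℕ)) : Prop :=
  ∀ s ∈ Slalom h, ∃ x ∈ F, {n | x n ∈ s n} ∈ J

/-- The set `V_J` of the (well-defined) values of the four numbers with `J` fixed. -/
def V (J : Set (Set ℕ)) : Set Cardinal.{0} :=
  {κ | ∃ h : ℕ → ℕ, IsMin (SlT h J) κ ∨ IsMin (SlE h J) κ ∨ IsMin (SlTperp h J) κ ∨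
    IsMin (SlEperp h J) κ}

/-- The cardinals which occur for some function `h` as `sl_e(h, J)` or its dual for some ideal `J`, or
as any of the four numbers for some maximal ideal `J`. -/
def Occur : Set Cardinal.{0} :=
  {κ | ∃ (h : ℕ → ℕ) (J : Set (Set ℕ)),
    (IsIdeal J ∧ (IsMin (SlE h J) κ ∨ IsMin (SlEperp h J) κ)) ∨
    (IsMaxIdeal J ∧ (IsMin (SlT h J) κ ∨ IsMin (SlTperp h J) κ))}

end Pool.Agent.Q307.Slal
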