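import Pool.Agent.Q307.Slal.Defs

/-!
# One ideal with many slalom numbers
-/

set_option autoImplicit false

universe u

namespace Pool.Agent.Q307.Slal

open Cardinal Set

/-- The least cardinality is unique. -/
theorem IsMin.unique {α : Type} {Φ : Set α → Prop} {κ μ : Cardinal.{0}} (h1 : IsMin Φ κ)
    (h2 : IsMin Φ μ) : κ = μ := by
  obtain ⟨⟨S, hS, rfl⟩, h1⟩ := h1
  obtain ⟨⟨T, hT, rfl⟩, h2⟩ := h2
  exact le_antisymm (h1 T hT) (h2 S hS)

theorem IsMin.transfer {α β : Type} {Φ : Set α → Prop} {Ψ : Set β → Prop}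
    (h1 : ∀ S, Φ S → ∃ T, Ψ T ∧ #T ≤ #S) (h2 : ∀ T, Ψ T → ∃ S, Φ S ∧ #S ≤ #T)
    {κ : Cardinal.{0}} (h : IsMin Φ κ) : IsMin Ψ κ := by
  obtain ⟨⟨S, hS, rfl⟩, hmin⟩ := h
  obtain ⟨T, hT, hTS⟩ := h1 S hS
  obtain ⟨S', hS', hST⟩ := h2 T hT
  refine ⟨⟨T, hT, le_antisymm hTS ((hmin S' hS').trans hST)⟩, fun T' hT' => ?_⟩
  obtain ⟨S'', hS'', h3⟩ := h2 T' hT'
  exact (hmin S'' hS'').trans h3

theorem mk_V_le (J : Set (Set ℕ)) : #(V J) ≤ 𝔠 := by
  classical
  have hex : ∀ κ : V J, ∃ p : (ℕ → ℕ) × Fin 4,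
      (p.2 = 0 → IsMin (SlT p.1 J) κ.1) ∧ (p.2 = 1 → IsMin (SlE p.1 J) κ.1) ∧
      (p.2 = 2 → IsMin (SlTperp p.1 J) κ.1) ∧ (p.2 = 3 → IsMin (SlEperp p.1 J) κ.1) := by
    rintro ⟨κ, h, hκ⟩
    rcases hκ with hκ | hκ | hκ | hκ
    · exact ⟨(h, 0), fun _ => hκ, fun h => absurd h (by decide : ¬ (0 : Fin 4) = 1), fun h => absurd h (by decide : ¬ (0 : Fin 4) = 2), fun h => absurd h (by decide : ¬ (0 : Fin 4) = 3)⟩
    · exact ⟨(h, 1), fun h => absurd h (by decide : ¬ (1 : Fin 4) = 0), fun _ => hκ, fun h => absurd h (by decide : ¬ (1 : Fin 4) = 2), fun h => absurd h (by decide : ¬ (1 : Fin 4) = 3)⟩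
    · exact ⟨(h, 2), fun h => absurd h (by decide : ¬ (2 : Fin 4) = 0), fun h => absurd h (by decide : ¬ (2 : Fin 4) = 1), fun _ => hκ, fun h => absurd h (by decide : ¬ (2 : Fin 4) = 3)⟩
    · exact ⟨(h, 3), fun h => absurd h (by decide : ¬ (3 : Fin 4) = 0), fun h => absurd h (by decide : ¬ (3 : Fin 4) = 1), fun h => absurd h (by decide : ¬ (3 : Fin 4) = 2), fun _ => hκ⟩
  choose p hp using hex
  have hinj : Function.Injective p := by
    intro κ μ hκμ
    apply Subtype.ext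
    obtain ⟨a0, a1, a2, a3⟩ := hp κ
    obtain ⟨b0, b1, b2, b3⟩ := hp μ
    rw [← hκμ] at b0 b1 b2 b3
    have h4 : (p κ).2 = 0 ∨ (p κ).2 = 1 ∨ (p κ).2 = 2 ∨ (p κ).2 = 3 := by
      generalize (p κ).2 = q
      revert q
      decide
    rcases h4 with h | h | h | h
    · exact (a0 h).unique (b0 h)
    · exact (a1 h).unique (b1 h)
    · exact (a2 h).unique (b2 h)
    · exact (a3 h).unique (b3 h)
  have h1 := lift_mk_le_lift_mk_of_injective hinj
  have h2 : #((ℕ → ℕ) × Fin 4) ≤ 𝔠 := by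
    have : #(ℕ → ℕ) = 𝔠 := by
      rw [mk_arrow]
      simp [aleph0_power_aleph0]
    rw [mk_prod, this]
    simp only [lift_id]
    calc 𝔠 * #(Fin 4) ≤ 𝔠 * 𝔠 := mul_le_mul' le_rfl (mk_le_aleph0.trans aleph0_le_continuum)
      _ = 𝔠 := continuum_mul_self
  have h3 := h1.trans (lift_le.mpr h2)
  rw [lift_continuum, ← lift_continuum.{_, 0}] at h3
  simpa using h3

/-- The branch through the coded tree. -/
def br (f : ℕ → Bool) (n : ℕ) : ℕ := Encodable.encode ((List.range n).map f)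

theorem br_eq {f g : ℕ → Bool} {n m : ℕ} (h : br f n = br g m) :
    n = m ∧ ∀ k < n, f k = g k := by
  have h1 : (List.range n).map f = (List.range m).map g := Encodable.encode_injective h
  have h2 : n = m := by simpa using congrArg List.length h1
  subst h2
  refine ⟨rfl, fun k hk => ?_⟩
  have h3 := List.map_inj_left.mp h1
  exact h3 k (List.mem_range.mpr hk)

theorem br_injective (f : ℕ → Bool) : Function.Injective (br f) := fun _ _ h => (br_eq h).1

theorem br_almost_disjoint {f g : ℕ → Bool} (hfg : f ≠ g) : (br g ⁻¹' range (br f)).Finite := by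
  have hex : ∃ k, f k ≠ g k := by
    by_contra hcon
    push Not at hcon
    exact hfg (funext hcon)
  obtain ⟨k, hk⟩ := hex
  refine (finite_le_nat k).subset ?_
  rintro n ⟨m, hm⟩
  by_contra hn
  have hlt : k < n := not_le.mp hn
  obtain ⟨h1, h2⟩ := br_eq hm
  subst h1
  exact hk (h2 k hlt)

section

variable {ι : Type u} (b : ι → (ℕ → Bool)) (hb : Function.Injective b) (I : ι → Set (Set ℕ))

/-- The ideal which is a copy of `I i` on the `i`-th almost disjoint set. -/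
def glue : Set (Set ℕ) := {X | ∀ i, br (b i) ⁻¹' X ∈ I i}

theorem isIdeal_glue [Nonempty ι] (hI : ∀ i, IsIdeal (I i)) : IsIdeal (glue b I) where
  fin X hX i := (hI i).fin _ (hX.preimage (br_injective _).injOn)
  mono X hX Y hY i := (hI i).mono _ (hX i) _ (preimage_mono hY)
  union X hX Y hY i := (hI i).union _ (hX i) _ (hY i)
  proper h := by
    obtain ⟨i⟩ := ‹Nonempty ι›
    exact (hI i).proper (h i)

/-- The extension of `h` by zero. -/
noncomputable def ext {α : Type} (z : α) (f : ℕ → Bool) (h : ℕ → α) (m : ℕ) : α :=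
  open Classical in if hm : ∃ n, br f n = m then h hm.choose else z

theorem ext_br {α : Type} (z : α) (f : ℕ → Bool) (h : ℕ → α) (n : ℕ) : ext z f h (br f n) = h n := by
  have hm : ∃ k, br f k = br f n := ⟨n, rfl⟩
  unfold ext
  rw [dif_pos hm]
  exact congrArg h (br_injective f hm.choose_spec)

theorem ext_of_not {α : Type} (z : α) (f : ℕ → Bool) (h : ℕ → α) {m : ℕ} (hm : m ∉ range (br f)) :
    ext z f h m = z := by
  unfold ext
  rw [dif_neg]
  rintro ⟨n, hn⟩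
  exact hm ⟨n, hn⟩

theorem slalom_ext (f : ℕ → Bool) (h : ℕ → ℕ) {s : ℕ → Finset ℕ} (hs : s ∈ Slalom h) :
    ext ∅ f s ∈ Slalom (ext 0 f h) := by
  intro m
  by_cases hm : m ∈ range (br f)
  · obtain ⟨n, rfl⟩ := hm
    rw [ext_br, ext_br]
    exact hs n
  · rw [ext_of_not _ _ _ hm, ext_of_not _ _ _ hm]
    simp

theorem slalom_comp (f : ℕ → Bool) (h : ℕ → ℕ) {s : ℕ → Finset ℕ} (hs : s ∈ Slalom (ext 0 f h)) :
    (fun n => s (br f n)) ∈ Slalom h := by
  intro n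
  have := hs (br f n)
  rwa [ext_br] at this

theorem subset_range (f : ℕ → Bool) (h : ℕ → ℕ) {s : ℕ → Finset ℕ} (hs : s ∈ Slalom (ext 0 f h))
    (x : ℕ → ℕ) : {m | x m ∈ s m} ⊆ range (br f) := by
  intro m hm
  by_contra hcon
  have h1 := hs m
  rw [ext_of_not _ _ _ hcon, Nat.le_zero, Finset.card_eq_zero] at h1
  have h2 : x m ∈ s m := hm
  rw [h1] at h2
  simp at h2

include hb in
theorem mem_glue_iff (hI : ∀ i, IsIdeal (I i)) (i : ι) {D : Set ℕ} (hD : D ⊆ range (br (b i))) :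
    D ∈ glue b I ↔ br (b i) ⁻¹' D ∈ I i := by
  refine ⟨fun h => h i, fun h j => ?_⟩
  by_cases hij : i = j
  · subst hij
    exact h
  · refine (hI j).fin _ ?_
    exact (br_almost_disjoint (fun h' => hij (hb h'))).subset (preimage_mono hD)

theorem preimage_ext (f : ℕ → Bool) (x : ℕ → ℕ) (s : ℕ → Finset ℕ) :
    br f ⁻¹' {m | x m ∈ ext ∅ f s m} = {n | x (br f n) ∈ s n} := by
  ext n
  show x (br f n) ∈ ext ∅ f s (br f n) ↔ _
  rw [ext_br]
  exact Iff.rfl

theorem preimage_ext' (f : ℕ → Bool) (x : ℕ → ℕ) (s : ℕ → Finset ℕ) :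
    br f ⁻¹' {m | ext 0 f x m ∈ s m} = {n | x n ∈ s (br f n)} := by
  ext n
  show ext 0 f x (br f n) ∈ s (br f n) ↔ _
  rw [ext_br]
  exact Iff.rfl

include hb in
theorem slE_glue (hI : ∀ i, IsIdeal (I i)) (i : ι) (h : ℕ → ℕ) {κ : Cardinal.{0}}
    (hκ : IsMin (SlE h (I i)) κ) : IsMin (SlE (ext 0 (b i) h) (glue b I)) κ := by
  refine hκ.transfer (fun S hS => ?_) (fun T hT => ?_)
  · refine ⟨(fun s => ext ∅ (b i) s) '' S, ⟨?_, fun x => ?_⟩, mk_image_le⟩
    · rintro _ ⟨s, hs, rfl⟩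
      exact slalom_ext _ _ (hS.1 hs)
    · obtain ⟨s, hs, hx⟩ := hS.2 (fun n => x (br (b i) n))
      refine ⟨_, ⟨s, hs, rfl⟩, fun hcon => hx ?_⟩
      have := hcon i
      rwa [preimage_ext] at this
  · refine ⟨(fun s n => s (br (b i) n)) '' T, ⟨?_, fun x => ?_⟩, mk_image_le⟩
    · rintro _ ⟨s, hs, rfl⟩
      exact slalom_comp _ _ (hT.1 hs)
    · obtain ⟨s, hs, hx⟩ := hT.2 (ext 0 (b i) x)
      refine ⟨_, ⟨s, hs, rfl⟩, fun hcon => hx ?_⟩
      rw [mem_glue_iff b hb I hI i (subset_range _ _ (hT.1 hs) _), preimage_ext']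
      exact hcon

include hb in
theorem slEperp_glue (hI : ∀ i, IsIdeal (I i)) (i : ι) (h : ℕ → ℕ) {κ : Cardinal.{0}}
    (hκ : IsMin (SlEperp h (I i)) κ) : IsMin (SlEperp (ext 0 (b i) h) (glue b I)) κ := by
  refine hκ.transfer (fun F hF => ?_) (fun G hG => ?_)
  · refine ⟨(fun x => ext 0 (b i) x) '' F, fun s hs => ?_, mk_image_le⟩
    obtain ⟨x, hx, hxs⟩ := hF _ (slalom_comp _ _ hs)
    refine ⟨_, ⟨x, hx, rfl⟩, ?_⟩
    rw [mem_glue_iff b hb I hI i (subset_range _ _ hs _), preimage_ext']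
    exact hxs
  · refine ⟨(fun x n => x (br (b i) n)) '' G, fun s hs => ?_, mk_image_le⟩
    obtain ⟨x, hx, hxs⟩ := hG _ (slalom_ext (b i) h hs)
    refine ⟨_, ⟨x, hx, rfl⟩, ?_⟩
    have := hxs i
    rwa [preimage_ext] at this

end

theorem slT_iff {J : Set (Set ℕ)} (hJ : IsMaxIdeal J) (h : ℕ → ℕ) (S : Set (ℕ → Finset ℕ)) :
    SlT h J S ↔ SlE h J S := by
  have key : ∀ X : Set ℕ, Xᶜ ∈ J ↔ X ∉ J := by
    intro X
    constructor
    · intro h1 h2
      apply hJ.1.proper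
      have := hJ.1.union _ h2 _ h1
      rwa [union_compl_self] at this
    · intro h1
      exact (hJ.2 X).resolve_left h1
  refine and_congr_right fun _ => forall_congr' fun x => exists_congr fun s => and_congr_right fun _ => ?_
  exact key {n | x n ∈ s n}

theorem slTperp_iff {J : Set (Set ℕ)} (hJ : IsMaxIdeal J) (h : ℕ → ℕ) (F : Set (ℕ → ℕ)) :
    SlTperp h J F ↔ SlEperp h J F := by
  have key : ∀ X : Set ℕ, Xᶜ ∉ J ↔ X ∈ J := by
    intro X
    constructor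
    · intro h1
      exact (hJ.2 X).resolve_right h1
    · intro h1 h2
      apply hJ.1.proper
      have := hJ.1.union _ h1 _ h2
      rwa [union_compl_self] at this
  refine forall_congr' fun s => forall_congr' fun _ => exists_congr fun x => and_congr_right fun _ => ?_
  exact key {n | x n ∈ s n}

theorem occur_iff {κ : Cardinal.{0}} : κ ∈ Occur ↔ ∃ (h : ℕ → ℕ) (J : Set (Set ℕ)),
    IsIdeal J ∧ (IsMin (SlE h J) κ ∨ IsMin (SlEperp h J) κ) := by
  constructor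
  · rintro ⟨h, J, hJ | ⟨hJ, hκ⟩⟩
    · exact ⟨h, J, hJ⟩
    · refine ⟨h, J, hJ.1, ?_⟩
      rw [show SlT h J = SlE h J from funext fun S => propext (slT_iff hJ h S),
        show SlTperp h J = SlEperp h J from funext fun S => propext (slTperp_iff hJ h S)] at hκ
      exact hκ
  · rintro ⟨h, J, hJ⟩
    exact ⟨h, J, Or.inl hJ⟩

/-- Every set of at most continuum many cardinals which occur is contained in one `V_J`. -/
theorem exists_ideal (K : Set Cardinal.{0}) (hK : K ⊆ Occur) (hne : K.Nonempty)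
    (hcard : #K ≤ 𝔠) : ∃ J, IsIdeal J ∧ K ⊆ V J := by
  classical
  have h1 : lift.{0} #K ≤ lift.{1} #(ℕ → Bool) := by
    have : #(ℕ → Bool) = 𝔠 := by simp [← two_power_aleph0]
    rw [this, lift_continuum]
    simpa using hcard
  obtain ⟨b⟩ := lift_mk_le'.mp h1
  choose h I hI using fun κ : K => occur_iff.mp (hK κ.2)
  have : Nonempty K := hne.to_subtype
  refine ⟨glue b I, isIdeal_glue b I (fun i => (hI i).1), fun κ hκ => ?_⟩
  refine ⟨ext 0 (b ⟨κ, hκ⟩) (h ⟨κ, hκ⟩), ?_⟩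
  rcases (hI ⟨κ, hκ⟩).2 with h2 | h2
  · exact Or.inr (Or.inl (slE_glue b b.injective I (fun i => (hI i).1) ⟨κ, hκ⟩ _ h2))
  · exact Or.inr (Or.inr (Or.inr (slEperp_glue b b.injective I (fun i => (hI i).1) ⟨κ, hκ⟩ _ h2)))

theorem main (H : 𝔠 ≤ #Occur) : ∃ J, IsIdeal J ∧ #(V J) = 𝔠 := by
  obtain ⟨K, hK, hcard⟩ := le_mk_iff_exists_subset.mp H
  have hne : K.Nonempty := by
    rw [← nonempty_coe_sort, ← mk_ne_zero_iff, hcard]
    exact continuum_ne_zero
  obtain ⟨J, hJ, hKJ⟩ := exists_ideal K hK hne hcard.le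
  refine ⟨J, hJ, le_antisymm (mk_V_le J) ?_⟩
  rw [← hcard]
  exact mk_le_mk_of_subset hKJ

end Pool.Agent.Q307.Slal
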